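import Mathlib
import Pool.Agent.HDZ.MainZ

/-!
# MP_45a7b9_gt: a nondegenerate homogeneous continuum is a circle or contains a nondegenerate
indecomposable continuum
-/

set_option autoImplicit false

open Set Topology

namespace Pool.Agent.Results.MP_45a7b9_gt.CircleOrIndecomposable

/-- Let `X` be a nondegenerate homogeneous continuum. Then `X` is homeomorphic to the circle, or `X`
contains a nondegenerate indecomposable continuum. -/
theorem result :
    ∀ (X : Type) [MetricSpace X] [CompactSpace X] [ConnectedSpace X] [Nontrivial X],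
      (∀ x y : X, ∃ h : X ≃ₜ X, h x = y) →
      Nonempty (X ≃ₜ Circle) ∨
      ∃ Y : Set X, IsClosed Y ∧ IsConnected Y ∧ Y.Nontrivial ∧
        ∀ A B : Set X, IsClosed A → IsConnected A → IsClosed B → IsConnected B →
          A ∪ B = Y → A = Y ∨ B = Y := by
  intro X _ _ _ _ hom
  by_cases h : ∃ Y : Set X, HDC.Ctm Y ∧ Y.Nontrivial ∧ HDC.Indec Y
  · right
    obtain ⟨Y, hY, hYn, hYi⟩ := h
    exact ⟨Y, hY.1, hY.2, hYn, fun A B hA hA' hB hB' hAB => hYi A B ⟨hA, hA'⟩ ⟨hB, hB'⟩ hAB⟩
  · left
    have : LocallyConnectedSpace X := by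
      by_contra hlc
      exact h (HDZ.indec_of_not_lc hom hlc)
    exact HDC.circle_of_locallyConnected hom h

end Pool.Agent.Results.MP_45a7b9_gt.CircleOrIndecomposable
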